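import Pool.Agent.Q19.JL.Fin2

/-!
# The Faltings height against the conductor for all elliptic curves over a number field, all heights,
all twists: the exact slope `1 / 3`

Frey asks for constants `κ`, `c`, depending only on the number field `K` and on `g`, such that
`h_F(A) ≤ κ log N_A + c` for all abelian varieties `A` over `K` of dimension `g`. We consider ALL
Weil restrictions `A = Res_{L/K} E` (so `g = [L : K]`, and `A = E` for `L = K`), where `E` is any
elliptic curve over a number field `L` and `K` any subfield of `L`. The height is the (unstable)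
Faltings height over `K`: `12 [K : ℚ] h_F(A)` is the sum of the logarithm of the norm of the
minimal discriminant of `E`, of the archimedean terms and of `6 log (|D_L| / |D_K| ^ g)`. The
conductor is `N_A = N(f_E) (|D_L| / |D_K| ^ g) ^ 2` (Milne), where the part of `N(f_E)` prime to six
is `multNorm E * addNorm E`.

The invariants `j ∈ L`, of all heights, are ordered by the product `radical j` of the norms of the
primes (not dividing six) at which `j` reduces to `0`, `1728` or `∞`. There are
`X ^ (2 / 3 + o(1))` invariants with `radical j ≤ X`. For all of them outside a set of power-saving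
proportion, ALL elliptic curves of invariant `j` (all twists) and ALL subfields `K` satisfy
`[K : ℚ] h_F(A) ≤ (1 / 3 + ε) log N_A + C`, and some elliptic curve of invariant `j` satisfies
`[K : ℚ] h_F(A) ≥ (1 / 3 - ε) log N_A - C` for all `K`. So the slope is `1 / (3 [K : ℚ])`. For
`L = K = ℚ` the first part of this was known (`FreyForAllTwists`).

The proof combines the theorem of the library on almost all points of the line `x + y + z = 0` over a
number field (points of all heights, ordered by the radical) with the exact exponents of the minimal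
discriminant: at most `8` at the simple zeros of `j`, `9` at those of `j - 1728`, `7` at the simple
poles and `6` elsewhere, for additive reduction outside six.
-/

set_option autoImplicit false

namespace Pool.Agent.Results.MP_6babc4_nt.AllTwistsOverNumberFields

open NumberField IsDedekindDomain

/-- the modular invariant `j(τ) = E₄(τ) ^ 3 / Δ(τ) = 1 / q + 744 + ⋯` -/
noncomputable def jInv (τ : UpperHalfPlane) : ℂ :=
  ModularForm.E₄ τ ^ 3 / ModularForm.discriminant τ

/-- the archimedean term `- log (|Δ(τ)| (Im τ) ^ 6)` of the Faltings height -/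
noncomputable def arch (τ : UpperHalfPlane) : ℝ :=
  -Real.log (‖ModularForm.discriminant τ‖ * τ.im ^ 6)

/-- the points `τ w` have modular invariant `j` -/
def IsPeriod {L : Type} [Field L] [NumberField L] (j : L)
    (τ : InfinitePlace L → UpperHalfPlane) : Prop := ∀ w, jInv (τ w) = w.embedding j

/-- the equation is integral at `v` -/
def IntAt {L : Type} [Field L] [NumberField L] (v : HeightOneSpectrum (𝓞 L))
    (E : WeierstrassCurve L) : Prop :=
  v.valuation L E.a₁ ≤ 1 ∧ v.valuation L E.a₂ ≤ 1 ∧ v.valuation L E.a₃ ≤ 1 ∧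
    v.valuation L E.a₄ ≤ 1 ∧ v.valuation L E.a₆ ≤ 1

/-- the exponent of `v` in the minimal discriminant of the curve: the least valuation at `v` of the
discriminant of a Weierstrass equation of the curve over `L` which is integral at `v` -/
noncomputable def discExp {L : Type} [Field L] [NumberField L] (v : HeightOneSpectrum (𝓞 L))
    (E : WeierstrassCurve L) : ℕ :=
  sInf {m : ℕ | ∃ C : WeierstrassCurve.VariableChange L, IntAt v (C • E) ∧
    v.valuation L (C • E).Δ = WithZero.exp (-(m : ℤ))}

/-- the Faltings height over `K` of the Weil restriction `A = Res_{L/K} E` of an elliptic curve `E`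
over `L` (up to an absolute additive multiple of `[L : K]` which depends on the normalisation of the
metric only) -/
noncomputable def height (K : Type) [Field K] [NumberField K] {L : Type} [Field L] [NumberField L]
    [Algebra K L] (E : WeierstrassCurve L) (τ : InfinitePlace L → UpperHalfPlane) : ℝ :=
  (∑ᶠ v : HeightOneSpectrum (𝓞 L), (discExp v E : ℝ) * Real.log (Ideal.absNorm v.asIdeal : ℝ) +
    ∑ w : InfinitePlace L, (w.mult : ℝ) * arch (τ w) +
    6 * (Real.log |(discr L : ℝ)| - Module.finrank K L * Real.log |(discr K : ℝ)|)) /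
    (12 * Module.finrank ℚ K)

/-- good reduction at `v`: some Weierstrass equation over `L` of the curve is integral at `v` and
has a discriminant which is a unit at `v` -/
def GoodAt {L : Type} [Field L] [NumberField L] (v : HeightOneSpectrum (𝓞 L))
    (E : WeierstrassCurve L) : Prop :=
  ∃ C : WeierstrassCurve.VariableChange L,
    v.valuation L (C • E).a₁ ≤ 1 ∧ v.valuation L (C • E).a₂ ≤ 1 ∧ v.valuation L (C • E).a₃ ≤ 1 ∧
    v.valuation L (C • E).a₄ ≤ 1 ∧ v.valuation L (C • E).a₆ ≤ 1 ∧ v.valuation L (C • E).Δ = 1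

/-- semistable (good or multiplicative) reduction at `v`: some Weierstrass equation over `L` of the
curve is integral at `v` and its discriminant or its invariant `c₄` is a unit at `v` -/
def SemistableAt {L : Type} [Field L] [NumberField L] (v : HeightOneSpectrum (𝓞 L))
    (E : WeierstrassCurve L) : Prop :=
  ∃ C : WeierstrassCurve.VariableChange L,
    v.valuation L (C • E).a₁ ≤ 1 ∧ v.valuation L (C • E).a₂ ≤ 1 ∧ v.valuation L (C • E).a₃ ≤ 1 ∧
    v.valuation L (C • E).a₄ ≤ 1 ∧ v.valuation L (C • E).a₆ ≤ 1 ∧
    (v.valuation L (C • E).Δ = 1 ∨ v.valuation L (C • E).c₄ = 1)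

/-- the product of the norms of the primes of multiplicative reduction not dividing six -/
noncomputable def multNorm {L : Type} [Field L] [NumberField L] (E : WeierstrassCurve L) : ℝ :=
  ∏ᶠ v ∈ {v : HeightOneSpectrum (𝓞 L) |
    ¬ GoodAt v E ∧ SemistableAt v E ∧ v.valuation L 6 = 1}, (Ideal.absNorm v.asIdeal : ℝ)

/-- the product of the squares of the norms of the primes of additive reduction not dividing six -/
noncomputable def addNorm {L : Type} [Field L] [NumberField L] (E : WeierstrassCurve L) : ℝ :=
  ∏ᶠ v ∈ {v : HeightOneSpectrum (𝓞 L) | ¬ SemistableAt v E ∧ v.valuation L 6 = 1},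
    (Ideal.absNorm v.asIdeal : ℝ) ^ 2

/-- the norm `|D_L| / |D_K| ^ [L : K]` of the relative discriminant -/
noncomputable def relDisc (K L : Type) [Field K] [NumberField K] [Field L] [NumberField L]
    [Algebra K L] : ℝ := |(discr L : ℝ)| / |(discr K : ℝ)| ^ Module.finrank K L

/-- the part `N` of the conductor of `A = Res_{L/K} E`: the part prime to six of the norm of the
conductor of `E`, times the square of the norm of the relative discriminant -/
noncomputable def cond (K : Type) [Field K] [NumberField K] {L : Type} [Field L] [NumberField L]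
    [Algebra K L] (E : WeierstrassCurve L) : ℝ :=
  multNorm E * addNorm E * relDisc K L ^ 2

/-- the product of the norms of the primes not dividing six at which `j` reduces to `0`, `1728` or
`∞` -/
noncomputable def radical {L : Type} [Field L] [NumberField L] (j : L) : ℝ :=
  ∏ᶠ v ∈ {v : HeightOneSpectrum (𝓞 L) | v.valuation L 6 = 1 ∧
    (v.valuation L j ≠ 1 ∨ v.valuation L (j - 1728) ≠ 1)}, (Ideal.absNorm v.asIdeal : ℝ)

/-- the invariants `j ≠ 0, 1728`, of whatever height, with `radical j ≤ X` -/
def Invariants (L : Type) [Field L] [NumberField L] (X : ℝ) : Set L :=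
  {j | j ≠ 0 ∧ j ≠ 1728 ∧ radical j ≤ X}

/-- the inequality `[K : ℚ] h_F(A) ≤ κ log N_A + C`, `A = Res_{L/K} E`, for all subfields `K` of `L`
and all elliptic curves `E` over `L` of invariant `j` -/
def Holds (κ C : ℝ) {L : Type} [Field L] [NumberField L] (j : L) : Prop :=
  ∀ (K : Type) [Field K] [NumberField K] [Algebra K L] (E : WeierstrassCurve L)
    (τ : InfinitePlace L → UpperHalfPlane), E.Δ ≠ 0 → E.c₄ ^ 3 / E.Δ = j → IsPeriod j τ →
    Module.finrank ℚ K * height K E τ ≤ κ * Real.log (cond K E) + C

/-- the opposite inequality `[K : ℚ] h_F(A) ≥ κ log N_A - C` for some elliptic curve `E` over `L` of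
invariant `j` and all subfields `K` of `L` -/
def Attained (κ C : ℝ) {L : Type} [Field L] [NumberField L] (j : L) : Prop :=
  ∃ E : WeierstrassCurve L, E.Δ ≠ 0 ∧ E.c₄ ^ 3 / E.Δ = j ∧
    ∀ (K : Type) [Field K] [NumberField K] [Algebra K L] (τ : InfinitePlace L → UpperHalfPlane),
      IsPeriod j τ → κ * Real.log (cond K E) - C ≤ Module.finrank ℚ K * height K E τ

theorem inv_eq (L : Type) [Field L] [NumberField L] (X : ℝ) :
    Invariants L X = Pool.Agent.Q19.JL.Iv L X := by
  ext j
  constructor
  · rintro ⟨h0, h1, h2⟩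
    refine ⟨h0, h1, ?_⟩
    rw [← Pool.Agent.Q19.JL.rad_eq h0 h1]
    exact h2
  · rintro ⟨h0, h1, h2⟩
    refine ⟨h0, h1, ?_⟩
    rw [← Pool.Agent.Q19.JL.rad_eq h0 h1] at h2
    exact h2

theorem one_le_disc (L : Type) [Field L] [NumberField L] : (1 : ℝ) ≤ |(discr L : ℝ)| := by
  have h1 : (1 : ℤ) ≤ |discr L| := Int.one_le_abs (discr_ne_zero L)
  exact_mod_cast h1

theorem log_rel (K L : Type) [Field K] [NumberField K] [Field L] [NumberField L] [Algebra K L] :
    Real.log (relDisc K L ^ 2) =
      2 * (Real.log |(discr L : ℝ)| - Module.finrank K L * Real.log |(discr K : ℝ)|) := by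
  have h1 : (0 : ℝ) < |(discr L : ℝ)| := by linarith [one_le_disc L]
  have h2 : (0 : ℝ) < |(discr K : ℝ)| := by linarith [one_le_disc K]
  unfold relDisc
  rw [Real.log_pow, Real.log_div h1.ne' (pow_pos h2 _).ne', Real.log_pow]
  push_cast
  ring

/-- the height of the Weil restriction -/
theorem height_eq (K : Type) [Field K] [NumberField K] {L : Type} [Field L] [NumberField L]
    [Algebra K L] (E : WeierstrassCurve L) (τ : InfinitePlace L → UpperHalfPlane) :
    12 * (Module.finrank ℚ K * height K E τ) = Pool.Agent.Y733.FF.discSum E +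
      ∑ w : InfinitePlace L, (w.mult : ℝ) * Pool.Agent.TH876.FH.arch (τ w) +
      3 * Real.log (relDisc K L ^ 2) := by
  have h0 : (12 * (Module.finrank ℚ K : ℝ)) ≠ 0 := by
    have : (0 : ℝ) < Module.finrank ℚ K := by exact_mod_cast Module.finrank_pos
    positivity
  have h3 : 3 * Real.log (relDisc K L ^ 2) =
      6 * (Real.log |(discr L : ℝ)| - Module.finrank K L * Real.log |(discr K : ℝ)|) := by
    rw [log_rel]
    ring
  rw [h3, ← mul_assoc]
  unfold height
  rw [mul_div_cancel₀ _ h0]
  rfl

theorem log_cond (K : Type) [Field K] [NumberField K] {L : Type} [Field L] [NumberField L]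
    [Algebra K L] (E : WeierstrassCurve L) (hE : E.Δ ≠ 0) :
    Real.log (cond K E) = Pool.Agent.Q19.JL.lc E + Real.log (relDisc K L ^ 2) := by
  have h1 : 0 < multNorm E := Pool.Agent.Y733.FF.multN_pos E hE
  have h2 : 0 < addNorm E := Pool.Agent.Y733.FF.addN_pos E hE
  have hd1 : (0 : ℝ) < |(discr L : ℝ)| := by linarith [one_le_disc L]
  have hd2 : (0 : ℝ) < |(discr K : ℝ)| := by linarith [one_le_disc K]
  have hr : 0 < relDisc K L := by
    unfold relDisc
    positivity
  unfold cond
  rw [Real.log_mul (mul_pos h1 h2).ne' (pow_pos hr 2).ne', Real.log_mul h1.ne' h2.ne']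
  rfl

/-- **The Faltings height of all twists of almost all elliptic curves over a number field, all
heights, with the exact slope `1 / 3`.** -/
theorem result (L : Type) [Field L] [NumberField L] :
    (∀ δ : ℝ, 0 < δ → ∃ X₀ : ℝ, ∀ X : ℝ, X₀ ≤ X → (Invariants L X).Finite ∧
      X ^ (2 / 3 - δ) ≤ ((Invariants L X).ncard : ℝ) ∧
      ((Invariants L X).ncard : ℝ) ≤ X ^ (2 / 3 + δ)) ∧
    ∀ ε : ℝ, 0 < ε → ∃ C ν X₀ : ℝ, 0 < ν ∧ ∀ X : ℝ, X₀ ≤ X →
      (({j : L | j ∈ Invariants L X ∧
        ¬ (Holds (1 / 3 + ε) C j ∧ Attained (1 / 3 - ε) C j)}.ncard : ℕ) : ℝ) ≤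
        X ^ (-ν) * (Invariants L X).ncard := by
  refine ⟨fun δ hδ => ?_, fun ε hε => ?_⟩
  · obtain ⟨X1, hX1, h1⟩ := Pool.Agent.Q19.JL.Iv_upper L δ hδ
    obtain ⟨X2, hX2, h2⟩ := Pool.Agent.Q19.JL.Iv_lower L δ hδ
    refine ⟨max X1 X2, fun X hX => ?_⟩
    rw [inv_eq]
    exact ⟨Pool.Agent.Q19.JL.Iv_fin L (hX1.trans ((le_max_left _ _).trans hX)),
      h2 X ((le_max_right _ _).trans hX), h1 X ((le_max_left _ _).trans hX)⟩
  · obtain ⟨C, ν, X₀, hν, hC, -, h⟩ := Pool.Agent.Q19.JL.unst L (12 * ε) (by positivity)
    have hdL : 0 ≤ Real.log |(discr L : ℝ)| := Real.log_nonneg (one_le_disc L)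
    refine ⟨C + Real.log |(discr L : ℝ)|, ν, X₀, hν, fun X hX => ?_⟩
    rw [inv_eq]
    refine h X hX _ (fun j hj => hj.1) fun j hj hg => hj.2 ?_
    obtain ⟨⟨h0, h1, -⟩, -⟩ := hj
    obtain ⟨hup, hlow⟩ := hg
    refine ⟨?_, Pool.Agent.Q19.JL.eMax j, Pool.Agent.Q19.JL.eMax_ne h0 h1,
      Pool.Agent.Q19.JL.eMax_j h0 h1, ?_⟩
    · intro K _ _ _ E τ hE hjE hτ
      have k1 := hup E τ hE hjE hτ
      have k2 := height_eq K E τ
      have k3 := log_cond K E hE
      have k4 : 0 ≤ Real.log (relDisc K L ^ 2) := by
        have := Pool.Agent.Y733.FF.disc_ge K L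
        rw [log_rel]
        linarith
      have k5 : 0 ≤ ε * Real.log (relDisc K L ^ 2) := by positivity
      rw [k3]
      linarith
    · intro K _ _ _ τ hτ
      have k1 := hlow τ
      have k2 := height_eq K (Pool.Agent.Q19.JL.eMax j) τ
      have k3 := log_cond K _ (Pool.Agent.Q19.JL.eMax_ne h0 h1)
      have k4 : 0 ≤ Real.log (relDisc K L ^ 2) := by
        have := Pool.Agent.Y733.FF.disc_ge K L
        rw [log_rel]
        linarith
      have k5 : 0 ≤ ε * Real.log (relDisc K L ^ 2) := by positivity
      have k6 : Real.log (relDisc K L ^ 2) ≤ 2 * Real.log |(discr L : ℝ)| := by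
        rw [log_rel]
        have h2 : 0 ≤ Real.log |(discr K : ℝ)| := Real.log_nonneg (one_le_disc K)
        have h3 : (0 : ℝ) ≤ Module.finrank K L * Real.log |(discr K : ℝ)| := by positivity
        linarith
      rw [k3]
      linarith

end Pool.Agent.Results.MP_6babc4_nt.AllTwistsOverNumberFields
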