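import Pool.Agent.Q19.FG.Low2

/-!
# The Faltings height against the conductor: the Weil restrictions of all elliptic curves over all
# extensions of degree `g` of a number field

Frey asks for constants `κ`, `c`, depending only on the number field `K` and on `g`, such that
`h_F(A) ≤ κ log N_A + c` for all abelian varieties `A` over `K` of dimension `g`. Fix `K` and `g`. We
count the violators among the Weil restrictions `A = Res_{L/K} E`, where `L` runs over ALL extensions
of `K` of degree `g` and `E` over ALL elliptic curves over `L`. The height is the (unstable) Faltings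
height over `K`: `12 [K : ℚ] h_F(A)` is the sum of the logarithm of the norm of the minimal
discriminant of `E`, of the archimedean terms and of `6 log (|D_L| / |D_K| ^ g)`. The conductor is
`N_A = N(f_E) (|D_L| / |D_K| ^ g) ^ 2` (Milne), so that `N_A` is a multiple of
`(|D_L| / |D_K| ^ g) ^ 2` times the product of the norms of the primes of bad reduction of `E`.

For EVERY slope `κ > 0` and every `c` the number of pairs `(L, j)` for which some `E` over `L` of
invariant `j` is a violator with `h_F(A) ≤ log B` is at most `M B ^ (a g / κ + δ)`, where `a` is a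
sequence which depends neither on `K` nor on `κ`, with `a 1 = 5 / 2` and `a g = O(log ^ 2 g)`. On the
other hand, for every single extension `L` of degree `g` there are at least
`b B ^ (6 [K : ℚ])` invariants `j ∈ L` of elliptic curves with `h_F(A) ≤ log B`. So for the slopes
`κ > a g / (6 [K : ℚ])` Frey's inequality holds for almost all of these `A`, and the exponent of the
number of violators tends to `0` as `κ` tends to infinity.

Over `K = ℚ` and for the stable height the first statement is `AllEllipticCurves` of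
`MP_c59389_nt`.
-/

set_option autoImplicit false

namespace Pool.Agent.Results.MP_6babc4_nt.RelativeExtensionsByHeight

open NumberField IsDedekindDomain

/-- the modular invariant `j(τ) = E₄(τ) ^ 3 / Δ(τ) = 1 / q + 744 + ⋯` -/
noncomputable def jInv (τ : UpperHalfPlane) : ℂ :=
  ModularForm.E₄ τ ^ 3 / ModularForm.discriminant τ

/-- the archimedean term `- log (|Δ(τ)| (Im τ) ^ 6)` of the Faltings height -/
noncomputable def arch (τ : UpperHalfPlane) : ℝ :=
  -Real.log (‖ModularForm.discriminant τ‖ * τ.im ^ 6)

/-- the points `τ w` have modular invariant `j` -/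
def IsPeriod {L : Type} [Field L] [NumberField L] (j : L)
    (τ : InfinitePlace L → UpperHalfPlane) : Prop := ∀ w, jInv (τ w) = w.embedding j

/-- the equation is integral at `v` -/
def IntAt {L : Type} [Field L] [NumberField L] (v : HeightOneSpectrum (𝓞 L))
    (E : WeierstrassCurve L) : Prop :=
  v.valuation L E.a₁ ≤ 1 ∧ v.valuation L E.a₂ ≤ 1 ∧ v.valuation L E.a₃ ≤ 1 ∧
    v.valuation L E.a₄ ≤ 1 ∧ v.valuation L E.a₆ ≤ 1

/-- the exponent of `v` in the minimal discriminant of the curve: the least valuation at `v` of the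
discriminant of a Weierstrass equation of the curve over `L` which is integral at `v` -/
noncomputable def discExp {L : Type} [Field L] [NumberField L] (v : HeightOneSpectrum (𝓞 L))
    (E : WeierstrassCurve L) : ℕ :=
  sInf {m : ℕ | ∃ C : WeierstrassCurve.VariableChange L, IntAt v (C • E) ∧
    v.valuation L (C • E).Δ = WithZero.exp (-(m : ℤ))}

/-- the Faltings height over `K` of the Weil restriction `A = Res_{L/K} E` of an elliptic curve `E`
over `L` (up to an absolute additive multiple of `[L : K]` which depends on the normalisation of the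
metric only) -/
noncomputable def height (K : Type) [Field K] [NumberField K] {L : Type} [Field L] [NumberField L]
    [Algebra K L] (E : WeierstrassCurve L) (τ : InfinitePlace L → UpperHalfPlane) : ℝ :=
  (∑ᶠ v : HeightOneSpectrum (𝓞 L), (discExp v E : ℝ) * Real.log (Ideal.absNorm v.asIdeal : ℝ) +
    ∑ w : InfinitePlace L, (w.mult : ℝ) * arch (τ w) +
    6 * (Real.log |(discr L : ℝ)| - Module.finrank K L * Real.log |(discr K : ℝ)|)) /
    (12 * Module.finrank ℚ K)

/-- good reduction at `v`: some Weierstrass equation over `L` of the curve is integral at `v` and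
has a discriminant which is a unit at `v` -/
def GoodAt {L : Type} [Field L] [NumberField L] (v : HeightOneSpectrum (𝓞 L))
    (E : WeierstrassCurve L) : Prop :=
  ∃ C : WeierstrassCurve.VariableChange L,
    v.valuation L (C • E).a₁ ≤ 1 ∧ v.valuation L (C • E).a₂ ≤ 1 ∧ v.valuation L (C • E).a₃ ≤ 1 ∧
    v.valuation L (C • E).a₄ ≤ 1 ∧ v.valuation L (C • E).a₆ ≤ 1 ∧ v.valuation L (C • E).Δ = 1

/-- the product of the norms of the primes of bad reduction; it divides the norm of the
conductor of `E` -/
noncomputable def badNorm {L : Type} [Field L] [NumberField L] (E : WeierstrassCurve L) : ℝ :=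
  ∏ᶠ v ∈ {v : HeightOneSpectrum (𝓞 L) | ¬ GoodAt v E}, (Ideal.absNorm v.asIdeal : ℝ)

/-- The pairs `(L, j)` where `L` is an extension of degree `g` of `K` (in an algebraic closure)
and `j ∈ L` is the modular invariant of an elliptic curve `E` over `L` such that
`A = Res_{L/K} E` has Faltings height `h_F(A) ≤ log B`. -/
def Family (K : Type) [Field K] [NumberField K] (g : ℕ) (B : ℝ) :
    Set (IntermediateField K (AlgebraicClosure K) × AlgebraicClosure K) :=
  {p | ∃ (_ : NumberField p.1) (E : WeierstrassCurve p.1) (τ : InfinitePlace p.1 → UpperHalfPlane),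
    Module.finrank K p.1 = g ∧ E.Δ ≠ 0 ∧
    ((E.c₄ ^ 3 / E.Δ : p.1) : AlgebraicClosure K) = p.2 ∧
    IsPeriod (E.c₄ ^ 3 / E.Δ) τ ∧ height K E τ ≤ Real.log B}

/-- The pairs `(L, j)` for which there is an elliptic curve `E` over `L` as in `Family` such that
moreover `h_F(A) > κ log N + c`, where `N = (|D_L| / |D_K| ^ g) ^ 2 * badNorm E` is a divisor of the
conductor of `A = Res_{L/K} E`. -/
def Violators (K : Type) [Field K] [NumberField K] (g : ℕ) (κ c B : ℝ) :
    Set (IntermediateField K (AlgebraicClosure K) × AlgebraicClosure K) :=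
  {p | ∃ (_ : NumberField p.1) (E : WeierstrassCurve p.1) (τ : InfinitePlace p.1 → UpperHalfPlane),
    Module.finrank K p.1 = g ∧ E.Δ ≠ 0 ∧
    ((E.c₄ ^ 3 / E.Δ : p.1) : AlgebraicClosure K) = p.2 ∧
    IsPeriod (E.c₄ ^ 3 / E.Δ) τ ∧ height K E τ ≤ Real.log B ∧
    κ * Real.log (badNorm E * (|(discr p.1 : ℝ)| / |(discr K : ℝ)| ^ g) ^ 2) + c < height K E τ}

/-- The exponent `(g + 2) * (g - 1) / (4 * (g - g / p))`, `p` the least prime factor of `g`; it is
`1`, `5 / 4`, `9 / 4`, `7 / 4` for `g = 2, 3, 4, 5`, and `(g + 2) / 4` for every prime `g`. -/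
noncomputable def expo (g : ℕ) : ℝ :=
  (((g + 2) * (g - 1) : ℕ) : ℝ) / (4 * ((g - g / g.minFac : ℕ) : ℝ))

/-- **Violators of Frey's inequality among the Weil restrictions to a number field `K` of all
elliptic curves over all extensions of degree `g` of `K`.** (A) For every `K`, every `g ≥ 1`, every
`κ, δ > 0` and every `c` at most `M B ^ (a g / κ + δ)` pairs `(L, j)` with `h_F(A) ≤ log B` violate
`h_F(A) ≤ κ log N_A + c`, where `a 1 = 5 / 2`, `a g ≤ max (5 / 2) (15 / 8 + expo g / 2)` for `g ≥ 2`
and `a g = O(log ^ 2 g)`. (B) For every single extension `L` of `K` of degree `g`, the family has at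
least `b B ^ (6 [K : ℚ])` members `(L, j)` with `h_F(A) ≤ log B`. -/
theorem result :
    (∃ a : ℕ → ℝ,
      (∀ c : ℝ, 1 / (16 * (Real.log 2) ^ 2) < c →
        ∀ᶠ g : ℕ in Filter.atTop, a g ≤ c * (Real.log g) ^ 2) ∧
      a 1 = 5 / 2 ∧ (∀ g : ℕ, 2 ≤ g → a g ≤ max (5 / 2) (15 / 8 + expo g / 2)) ∧
      ∀ (K : Type) [Field K] [NumberField K] (g : ℕ), 1 ≤ g → ∀ κ c δ : ℝ, 0 < κ → 0 < δ →
        ∃ M : ℝ, ∀ B : ℝ, 1 ≤ B → (Violators K g κ c B).Finite ∧
          ((Violators K g κ c B).ncard : ℝ) ≤ M * B ^ (a g / κ + δ)) ∧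
    (∀ (K : Type) [Field K] [NumberField K] (g : ℕ), 1 ≤ g →
      ∀ L : IntermediateField K (AlgebraicClosure K), NumberField L → Module.finrank K L = g →
        ∃ b : ℝ, 0 < b ∧ ∃ B₀ : ℝ, ∀ B : ℝ, B₀ ≤ B →
          ∃ F : Finset (IntermediateField K (AlgebraicClosure K) × AlgebraicClosure K),
            (F : Set (IntermediateField K (AlgebraicClosure K) × AlgebraicClosure K)) ⊆
              Family K g B ∧ (∀ p ∈ F, p.1 = L) ∧
            b * B ^ (6 * Module.finrank ℚ K) ≤ F.card) :=
  ⟨Pool.Agent.Y729.AE.final3, fun K _ _ g hg L hnf hL =>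
    Pool.Agent.Q19.FG.low K g hg L hnf hL⟩

end Pool.Agent.Results.MP_6babc4_nt.RelativeExtensionsByHeight
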