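import Mathlib
import Pool.Agent.Y670.RD.Asm
import Pool.Agent.Y679.Fh.Gm

/-!
# The inequality of Frey with the slope `1/2 + ε` for all fibres of a family with squarefree bad form

`y² = x³ - 27 a(T) x - 54 b(T)` is a family of elliptic curves with `c₄ = a (T)`, `c₆ = b (T)` up to
squares, `g` the squarefree polynomial of its `γ` bad fibres (they need not be rational). For every
family, every finite set `S` of primes and every `ε > 0` the inequality
`h_F(E) ≤ (1/4 + n/(4(γ-2)) + ε) log N_E + B` holds for ALL elliptic curves over `ℚ` which are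
quadratic twists of a fibre `(s : t)` for which `g (s, t)` is squarefree outside `S`; the slope is at
most `1/2 + ε` in every family. For the other fibres the conductor has to be multiplied by the excess
of `g (s, t)`.
-/

set_option autoImplicit false

namespace Pool.Agent.Results.MP_6babc4_nt.SquarefreeFibres

open Polynomial

/-- `W` is a global minimal Weierstrass equation: `Δ ≠ 0`, and `|Δ|` is smallest among all integral
Weierstrass equations that are obtained from `W` by a change of variables over `ℚ` -/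
def IsGlobalMinimal (W : WeierstrassCurve ℤ) : Prop :=
  W.Δ ≠ 0 ∧ ∀ W' : WeierstrassCurve ℤ,
    (∃ C : WeierstrassCurve.VariableChange ℚ,
      C • W.map (Int.castRingHom ℚ) = W'.map (Int.castRingHom ℚ)) → |W.Δ| ≤ |W'.Δ|

/-- `N₆`, the prime-to-6 part of the conductor of a global minimal equation: the product over the
primes `p ≥ 5` dividing `Δ` of `p` (multiplicative reduction, `p ∤ c₄`) or `p²` (additive,
`p ∣ c₄`) -/
def conductor6 (W : WeierstrassCurve ℤ) : ℕ :=
  ∏ p ∈ W.Δ.natAbs.primeFactors.filter (fun p => 5 ≤ p), if (p : ℤ) ∣ W.c₄ then p ^ 2 else p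

/-- the value at `(s, t)` of the binary form `∑ fᵢ Xⁱ Y^(N - i)` of degree `N` of the polynomial
`f = ∑ fᵢ Xⁱ`; it is `t ^ N * f (s / t)` when `t ≠ 0` and `deg f ≤ N` -/
noncomputable def formValue (N : ℕ) (f : ℤ[X]) (s t : ℤ) : ℤ :=
  ∑ i ∈ Finset.range (N + 1), f.coeff i * s ^ i * t ^ (N - i)

/-- A one-parameter family of elliptic curves with `c₄ = a (T)`, `c₆ = b (T)`. The binary forms `A`,
`B` of degrees `2n`, `3n` of `a`, `b` have no common zero of order `≥ 2` on `A` and `≥ 3` on `B`, the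
fibre at infinity is nonsingular (`deg (a³ - b²) = 6n`), the `j`-invariant is not constant, and `g` is
a squarefree polynomial with the same irreducible factors over `ℚ` as `a³ - b²`; `γ = deg g` is the
number of bad fibres.

Every elliptic curve over `ℚ(T)` with non-constant `j`-invariant has such a form after a change of
the parameter `T` and a quadratic twist. -/
structure IsFamily (n : ℕ) (a b g : ℤ[X]) : Prop where
  pos : 1 ≤ n
  deg_a : a.natDegree ≤ 2 * n
  deg_b : b.natDegree ≤ 3 * n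
  deg_disc : (a ^ 3 - b ^ 2).natDegree = 6 * n
  nonisotrivial : ∀ x y : ℤ, C x * a ^ 3 = C y * b ^ 2 → x = 0 ∧ y = 0
  minimal : ∀ π : ℚ[X], Irreducible π →
    ¬ (π ^ 2 ∣ a.map (Int.castRingHom ℚ) ∧ π ^ 3 ∣ b.map (Int.castRingHom ℚ))
  squarefree : Squarefree (g.map (Int.castRingHom ℚ))
  dvd : g.map (Int.castRingHom ℚ) ∣ (a ^ 3 - b ^ 2).map (Int.castRingHom ℚ)
  dvd_pow : ∃ k : ℕ, (a ^ 3 - b ^ 2).map (Int.castRingHom ℚ) ∣ (g.map (Int.castRingHom ℚ)) ^ k

/-- `W` is isomorphic over `ℚ` to a quadratic twist of the fibre `(s : t)` -/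
def IsTwist (n : ℕ) (a b : ℤ[X]) (s t : ℤ) (W : WeierstrassCurve ℤ) : Prop :=
  ∃ u : ℚ, (W.c₄ : ℚ) = u ^ 2 * (formValue (2 * n) a s t : ℤ) ∧
    (W.c₆ : ℚ) = u ^ 3 * (formValue (3 * n) b s t : ℤ)

/-- the excess of `m` outside `S`: the product of `p ^ (v_p(m) - 1)` over the primes `p ∉ S`
dividing `m` -/
def excess (S : Finset ℕ) (m : ℕ) : ℕ := ∏ p ∈ m.primeFactors \ S, p ^ (m.factorization p - 1)

/-- the modular invariant `j(τ) = E₄(τ) ^ 3 / Δ(τ) = 1 / q + 744 + ⋯` -/
noncomputable def jInv (τ : UpperHalfPlane) : ℂ :=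
  ModularForm.E₄ τ ^ 3 / ModularForm.discriminant τ

/-- the archimedean term `- log (|Δ(τ)| (Im τ) ^ 6)` of the Faltings height -/
noncomputable def arch (τ : UpperHalfPlane) : ℝ :=
  -Real.log (‖ModularForm.discriminant τ‖ * τ.im ^ 6)

/-- `W(ℂ)` is isomorphic to `ℂ / (ℤ + ℤ τ)`: `j(τ) = c₄³ / Δ` is the invariant of `W` -/
def IsPeriod (W : WeierstrassCurve ℤ) (τ : UpperHalfPlane) : Prop :=
  jInv τ = (((W.c₄ : ℚ) ^ 3 / W.Δ : ℚ) : ℂ)

/-- The Faltings height over `ℚ` of the elliptic curve with the global minimal equation `W` (up to an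
additive constant which depends on the normalisation only): `12 h_F` is the logarithm of the minimal
discriminant plus the archimedean term at a period `τ` of the curve. -/
noncomputable def faltings (W : WeierstrassCurve ℤ) (τ : UpperHalfPlane) : ℝ :=
  (Real.log (|W.Δ| : ℤ) + arch τ) / 12

lemma excess_eq_one {S : Finset ℕ} {m : ℕ} (h : ∀ p : ℕ, p.Prime → p ∉ S → ¬ p ^ 2 ∣ m) :
    excess S m = 1 := by
  unfold excess
  refine Finset.prod_eq_one fun p hp => ?_
  rw [Finset.mem_sdiff, Nat.mem_primeFactors] at hp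
  obtain ⟨⟨hpp, -, hm0⟩, hpS⟩ := hp
  have h1 : m.factorization p < 2 := by
    by_contra hcon
    push Not at hcon
    exact h p hpp hpS ((hpp.pow_dvd_iff_le_factorization hm0).mpr hcon)
  have h2 : m.factorization p - 1 = 0 := by omega
  rw [h2, pow_zero]

lemma cond_one (W : WeierstrassCurve ℤ) : 1 ≤ conductor6 W := by
  unfold conductor6
  refine Nat.one_le_iff_ne_zero.2 (Finset.prod_ne_zero_iff.2 fun p hp => ?_)
  have h := (Nat.prime_of_mem_primeFactors (Finset.mem_filter.1 hp).1).pos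
  split_ifs
  · positivity
  · positivity

lemma excess_pos (S : Finset ℕ) (m : ℕ) : 1 ≤ excess S m := by
  unfold excess
  refine Nat.one_le_iff_ne_zero.2 (Finset.prod_ne_zero_iff.2 fun p hp => ?_)
  have h := (Nat.prime_of_mem_primeFactors (Finset.mem_sdiff.1 hp).1).pos
  positivity

/-- **Theorem.** Let `(a, b, g)` be a one-parameter family with `γ = deg g` bad fibres. Then
`γ ≥ n + 2`, so that the slope `κ = 1/4 + n/(4(γ - 2))` is at most `1/2`, and for every finite set `S`
of primes and every `ε > 0` there is a constant `B` such that for ALL elliptic curves `W` over `ℚ`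
which are quadratic twists of a fibre `(s : t)`, `s` and `t` coprime:
(1) `h_F(W) ≤ (κ + ε) log (N₆ E) + B`, `E` the excess of `g (s, t)` outside `S`;
(2) `h_F(W) ≤ (κ + ε) log N₆ + B` and `h_F(W) ≤ (1/2 + ε) log N₆ + B` if no square of a prime
`p ∉ S` divides `g (s, t)`.
Moreover every `W` has a period `τ`. -/
theorem result (n : ℕ) (a b g : ℤ[X]) (h : IsFamily n a b g) :
    n + 2 ≤ g.natDegree ∧ (∀ W : WeierstrassCurve ℤ, ∃ τ, IsPeriod W τ) ∧
    ∀ (S : Finset ℕ) (ε : ℝ), 0 < ε → ∃ B : ℝ, ∀ (s t : ℤ) (W : WeierstrassCurve ℤ)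
      (τ : UpperHalfPlane), IsCoprime s t → IsGlobalMinimal W → IsTwist n a b s t W →
      IsPeriod W τ →
      faltings W τ ≤ (1 / 4 + (n : ℝ) / (4 * ((g.natDegree : ℝ) - 2)) + ε) *
        Real.log ((conductor6 W : ℝ) *
          (excess S (formValue g.natDegree g s t).natAbs : ℝ)) + B ∧
      ((∀ p : ℕ, p.Prime → p ∉ S → ¬ p ^ 2 ∣ (formValue g.natDegree g s t).natAbs) →
        faltings W τ ≤ (1 / 4 + (n : ℝ) / (4 * ((g.natDegree : ℝ) - 2)) + ε) *
          Real.log (conductor6 W : ℝ) + B ∧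
        faltings W τ ≤ (1 / 2 + ε) * Real.log (conductor6 W : ℝ) + B) := by
  have hF : Pool.Agent.Y670.RD.Fam n a b g :=
    ⟨h.pos, h.deg_a, h.deg_b, h.deg_disc, h.nonisotrivial, h.minimal, h.squarefree, h.dvd,
      h.dvd_pow⟩
  have hγ : n + 2 ≤ g.natDegree := hF.dav
  refine ⟨hγ, Pool.Agent.Y679.Fh.ex_P, fun S ε hε => ?_⟩
  obtain ⟨C, hC⟩ := hF.main S (12 * ε) (by positivity)
  obtain ⟨C₀, hC₀⟩ := Pool.Agent.Y679.Fh.fh_le
  have hn0 : (0 : ℝ) ≤ (n : ℝ) := Nat.cast_nonneg _
  have hγR : (n : ℝ) + 2 ≤ (g.natDegree : ℝ) := by exact_mod_cast hγ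
  have hn1 : (1 : ℝ) ≤ (n : ℝ) := by exact_mod_cast h.pos
  obtain ⟨κ, hκ⟩ : ∃ κ : ℝ, κ = 1 / 4 + (n : ℝ) / (4 * ((g.natDegree : ℝ) - 2)) := ⟨_, rfl⟩
  have hd : (0 : ℝ) < (g.natDegree : ℝ) - 2 := by linarith
  have hκ12 : 3 + 3 * (n : ℝ) / ((g.natDegree : ℝ) - 2) + 12 * ε = 12 * (κ + ε) := by
    rw [hκ]
    field_simp
    ring
  have hκ2 : κ ≤ 1 / 2 := by
    have h1 : (n : ℝ) / (4 * ((g.natDegree : ℝ) - 2)) ≤ 1 / 4 := by
      rw [div_le_iff₀ (by positivity)]
      linarith
    rw [hκ]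
    linarith
  rw [← hκ]
  set C' : ℝ := max C 1 with hC'
  have hC'1 : 1 ≤ C' := le_max_right _ _
  refine ⟨(C₀ + Real.log C') / 12, fun s t W τ hst hW ⟨u, h4, h6⟩ hτ => ?_⟩
  have hN : (1 : ℝ) ≤ (conductor6 W : ℝ) := by exact_mod_cast cond_one W
  have hE : (1 : ℝ) ≤ (excess S (formValue g.natDegree g s t).natAbs : ℝ) := by
    exact_mod_cast excess_pos _ _
  have hNE : (1 : ℝ) ≤ (conductor6 W : ℝ) *
      (excess S (formValue g.natDegree g s t).natAbs : ℝ) := by nlinarith
  have h1 : Pool.Agent.Y679.Fh.cH W ≤ C' * ((conductor6 W : ℝ) *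
      (excess S (formValue g.natDegree g s t).natAbs : ℝ)) ^ (12 * (κ + ε)) := by
    rw [← hκ12]
    refine (hC W hW s t u hst h4 h6).trans ?_
    exact mul_le_mul_of_nonneg_right (le_max_left _ _) (by positivity)
  have hcH : 0 < Pool.Agent.Y679.Fh.cH W := lt_of_lt_of_le one_pos
    ((Pool.Agent.Y679.Fh.m_pos hW.1).trans Pool.Agent.Y679.Fh.m_le)
  have h2 := Real.log_le_log hcH h1
  rw [Real.log_mul (by positivity) (by positivity), Real.log_rpow (by linarith)] at h2
  have h3 := hC₀ W hW.1 τ hτ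
  have h4 : 12 * Pool.Agent.Y679.Fh.fh W τ = 12 * faltings W τ := rfl
  rw [h4] at h3
  have hmain : faltings W τ ≤ (κ + ε) * Real.log ((conductor6 W : ℝ) *
      (excess S (formValue g.natDegree g s t).natAbs : ℝ)) + (C₀ + Real.log C') / 12 := by
    linarith
  refine ⟨hmain, fun hsq => ?_⟩
  rw [excess_eq_one hsq, Nat.cast_one, mul_one] at hmain
  refine ⟨hmain, hmain.trans ?_⟩
  have h5 : 0 ≤ Real.log (conductor6 W : ℝ) := Real.log_nonneg hN
  nlinarith

end Pool.Agent.Results.MP_6babc4_nt.SquarefreeFibres
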