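import Pool.Agent.Q10.KX2

/-!
The Faltings height of almost all quadratic twists of the members of a one-parameter family of
elliptic curves whose bad fibres are multiplicative and not necessarily over rational points, by
conductor: `h_F` is asymptotic to `(1/4) log N`. The families of the curves with a rational torsion
subgroup of order 7, 8, 9, 10, 12 or `2 × 8` are examples.
-/

set_option autoImplicit false

namespace Pool.Agent.Results.MP_6babc4_nt.TwistsByConductor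

open Finset Polynomial

/-- the discriminant `D = 4a³ - 27b²` of the model `y² = x³ - a x - b` -/
def Disc (a b : ℤ) : ℤ := 4 * a ^ 3 - 27 * b ^ 2

/-- the model `y² = x³ - a x - b` is an elliptic curve (`D ≠ 0`) and it is minimal: `|D|` is
smallest among the integral models `y² = x³ - a' x - b'`, `a' = u⁴ a`, `b' = u⁶ b`, `u ∈ ℚ^×` -/
def IsMinimal (a b : ℤ) : Prop :=
  Disc a b ≠ 0 ∧ ∀ (u : ℚ) (a' b' : ℤ), u ≠ 0 → (a' : ℚ) = u ^ 4 * a → (b' : ℚ) = u ^ 6 * b →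
    |Disc a b| ≤ |Disc a' b'|

/-- the prime-to-6 part `N₆` of the conductor of a minimal model: the product over the primes
`p ≥ 5` dividing `D` of `p` (node: `p ∤ a`) or `p²` (cusp: `p ∣ a`) -/
def Cond6 (a b : ℤ) : ℕ :=
  ∏ p ∈ (Disc a b).natAbs.primeFactors.filter (fun p : ℕ => 5 ≤ p),
    if ((p : ℕ) : ℤ) ∣ a then (p : ℕ) ^ 2 else p

/-- the minimal models of a class of curves with `N₆ ≤ N`; there is no condition on `D` -/
def Curves (P : ℤ → ℤ → Prop) (N : ℝ) : Set (ℤ × ℤ) :=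
  {q | IsMinimal q.1 q.2 ∧ P q.1 q.2 ∧ (Cond6 q.1 q.2 : ℝ) ≤ N}

/-- the curve `y² = x³ - a x - b` -/
def Curve (q : ℤ × ℤ) : WeierstrassCurve ℚ := ⟨0, 0, 0, -(q.1 : ℚ), -(q.2 : ℚ)⟩

/-- the absolute value of the minimal discriminant of an elliptic curve over `ℚ` -/
noncomputable def minDisc (W : WeierstrassCurve ℚ) : ℕ :=
  sInf {n : ℕ | ∃ (V : WeierstrassCurve ℤ) (C : WeierstrassCurve.VariableChange ℚ),
    C • W = V.map (Int.castRingHom ℚ) ∧ n = V.Δ.natAbs}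

/-- the modular invariant `j(τ) = E₄(τ) ^ 3 / Δ(τ) = 1 / q + 744 + ⋯` -/
noncomputable def jInv (τ : UpperHalfPlane) : ℂ :=
  ModularForm.E₄ τ ^ 3 / ModularForm.discriminant τ

/-- the archimedean term `- log (|Δ(τ)| (Im τ) ^ 6)` of the Faltings height -/
noncomputable def arch (τ : UpperHalfPlane) : ℝ :=
  -Real.log (‖ModularForm.discriminant τ‖ * τ.im ^ 6)

/-- `τ` is a period of the curve: its modular invariant is the invariant of the curve -/
def IsPeriod (q : ℤ × ℤ) (τ : UpperHalfPlane) : Prop :=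
  jInv τ = (((Curve q).c₄ ^ 3 / (Curve q).Δ : ℚ) : ℂ)

/-- the Faltings height over `ℚ` of the curve (up to an additive constant which depends on the
normalisation only): `12 h_F` is the logarithm of the minimal discriminant plus the archimedean
term at a period -/
noncomputable def height (q : ℤ × ℤ) (τ : UpperHalfPlane) : ℝ :=
  (Real.log (minDisc (Curve q) : ℝ) + arch τ) / 12

/-- those for which `|h_F - (1/4) log N₆| ≤ η log N₆` is false (for some period) -/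
def Failures (P : ℤ → ℤ → Prop) (η N : ℝ) : Set (ℤ × ℤ) :=
  {q | q ∈ Curves P N ∧ ¬ ∀ τ, IsPeriod q τ →
    |height q τ - 1 / 4 * Real.log (Cond6 q.1 q.2)| ≤ η * Real.log (Cond6 q.1 q.2)}

/-- between `c √N` and `C √N` curves of the class have `N₆ ≤ N`, and for all `η, ε > 0` all but
`ε √N` of them, `N ≥ N₀`, satisfy `|h_F - (1/4) log N₆| ≤ η log N₆` -/
def AlmostAll (P : ℤ → ℤ → Prop) : Prop :=
  (∃ C : ℝ, 0 < C ∧ ∀ N : ℝ, 1 ≤ N → (Curves P N).Finite ∧
    ((Curves P N).ncard : ℝ) ≤ C * Real.sqrt N) ∧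
  (∃ c : ℝ, 0 < c ∧ ∃ N₀ : ℝ, ∀ N : ℝ, N₀ ≤ N → c * Real.sqrt N ≤ ((Curves P N).ncard : ℝ)) ∧
  (∀ η ε : ℝ, 0 < η → 0 < ε → ∃ N₀ : ℝ, ∀ N : ℝ, N₀ ≤ N →
    ((Failures P η N).ncard : ℝ) ≤ ε * Real.sqrt N)

/-- a family `y² = x³ - A(t) x - B(t)` all of whose bad fibres are multiplicative (for a quadratic
twist, locally): `A`, `B` are coprime, of degrees at most `2κ`, `3κ` with an equality, and
`4A³ - 27B² = c ∏ gⱼ ^ dⱼ ∏ hᵢ ^ eᵢ` as a form of degree `6κ`, where the `gⱼ` are `w` forms of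
degrees `nⱼ ≥ 2`, `u` of them of degree two, the `hᵢ` are `L` linear forms (a constant `hᵢ` is the
linear form that vanishes at infinity), and `∏ gⱼ ∏ hᵢ` has no multiple factors -/
structure Family (A B : ℤ[X]) (κ w L u : ℕ) : Prop where
  one_le : 1 ≤ κ
  degA : A.natDegree ≤ 2 * κ
  degB : B.natDegree ≤ 3 * κ
  deg : A.natDegree = 2 * κ ∨ B.natDegree = 3 * κ
  coprime : IsCoprime (A.map (Int.castRingHom ℚ)) (B.map (Int.castRingHom ℚ))
  fibres : ∃ (g : Fin w → ℤ[X]) (n d : Fin w → ℕ) (h : Fin L → ℤ[X]) (e : Fin L → ℕ) (c : ℤ),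
    (∀ j, (g j).natDegree ≤ n j ∧ 2 ≤ n j) ∧ (∀ i, (h i).natDegree ≤ 1) ∧
    (univ.filter fun j => n j = 2).card = u ∧
    Squarefree (((∏ j, g j) * ∏ i, h i).map (Int.castRingHom ℚ)) ∧
    ∑ j, n j + L ≤ ((∏ j, g j) * ∏ i, h i).natDegree + 1 ∧
    c ≠ 0 ∧ (∀ j, 1 ≤ d j) ∧ (∀ i, 1 ≤ e i) ∧ ∑ j, d j * n j + ∑ i, e i = 6 * κ ∧
    4 * A ^ 3 - 27 * B ^ 2 = C c * ((∏ j, g j ^ d j) * ∏ i, h i ^ e i)

/-- `y² = x³ - a x - b` is isomorphic to a quadratic twist of a member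
`y² = x³ - A(t) x - B(t)`, `t ∈ ℚ` -/
def Twist (A B : ℤ[X]) (a b : ℤ) : Prop :=
  ∃ t δ : ℚ, δ ≠ 0 ∧ (a : ℚ) = δ ^ 2 * (A.map (Int.castRingHom ℚ)).eval t ∧
    (b : ℚ) = δ ^ 3 * (B.map (Int.castRingHom ℚ)).eval t

/-- the groups of order at least seven in Mazur's list of the torsion subgroups of the elliptic
curves over `ℚ` for which the modular curve has irrational cusps -/
inductive Torsion
  | Z7 | Z8 | Z9 | Z10 | Z12 | Z2Z8

/-- Kubert's families `y² + a₁(t) x y + a₃(t) y = x³ + a₂(t) x²` (Tate normal forms, with the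
denominators cleared) -/
def curve : Torsion → ℚ → WeierstrassCurve ℚ
  | .Z7, t => ⟨1 + t - t ^ 2, -(t ^ 2 * (t - 1)), -(t ^ 2 * (t - 1)), 0, 0⟩
  | .Z8, t => ⟨t - (2 * t - 1) * (t - 1), -((2 * t - 1) * (t - 1) * t ^ 2),
      -((2 * t - 1) * (t - 1) * t ^ 3), 0, 0⟩
  | .Z9, t => ⟨1 - t ^ 2 * (t - 1), -(t ^ 2 * (t - 1) * (t ^ 2 - t + 1)),
      -(t ^ 2 * (t - 1) * (t ^ 2 - t + 1)), 0, 0⟩
  | .Z10, t => ⟨-t ^ 2 + 3 * t - 1 - t * (2 * t - 1) * (t - 1), -(t ^ 3 * (2 * t - 1) * (t - 1)),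
      -(t ^ 3 * (2 * t - 1) * (t - 1) * (-t ^ 2 + 3 * t - 1)), 0, 0⟩
  | .Z12, t => ⟨(t - 1) ^ 3 + t * (2 * t - 1) * (3 * t ^ 2 - 3 * t + 1),
      -(t * (2 * t - 1) * (3 * t ^ 2 - 3 * t + 1) * (2 * t ^ 2 - 2 * t + 1) * (t - 1) ^ 2),
      -(t * (2 * t - 1) * (3 * t ^ 2 - 3 * t + 1) * (2 * t ^ 2 - 2 * t + 1) * (t - 1) ^ 5), 0, 0⟩
  | .Z2Z8, t => ⟨t * (2 * t + 1) * (2 * t ^ 2 - 1) - (t + 1) * (2 * t ^ 2 + 2 * t + 1),
      -((t + 1) * (2 * t ^ 2 + 2 * t + 1) * (t * (2 * t + 1)) ^ 2),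
      -((t + 1) * (2 * t ^ 2 + 2 * t + 1) * (t * (2 * t + 1)) ^ 3 * (2 * t ^ 2 - 1)), 0, 0⟩

/-- a quadratic twist `y² = x³ - d² a x - d³ b` of `y² = x³ - a x - b` is isomorphic over `ℚ` to a
member of Kubert's family for `T` -/
def KubertTwist (T : Torsion) (a b : ℤ) : Prop :=
  ∃ d : ℚ, d ≠ 0 ∧ ∃ (t : ℚ) (C : WeierstrassCurve.VariableChange ℚ),
    C • curve T t = ⟨0, 0, 0, -(d ^ 2 * a), -(d ^ 3 * b)⟩

/-- **Theorem.** (1) Let `(A, B)` be a family as in `Family A B κ w L u` with `L ≥ 3` and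
`L + 2w - u ≥ 5`. Between `c √N` and `C √N` quadratic twists of the members of the family have
`N₆ ≤ N`, and all but `o(√N)` of them satisfy `(1/4 - η) log N₆ ≤ h_F ≤ (1/4 + η) log N₆`.

(2) The same holds for the quadratic twists of the elliptic curves over `ℚ` with a torsion subgroup
`Z7, Z8, Z9, Z10, Z12` or `Z2 × Z8`, that is, of the members of Kubert's families.

(3) Every curve has a period. -/
theorem result :
    (∀ (A B : ℤ[X]) (κ w L u : ℕ), Family A B κ w L u → 3 ≤ L → 5 + u ≤ L + 2 * w →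
      AlmostAll (Twist A B)) ∧
    (∀ T : Torsion, AlmostAll (KubertTwist T)) ∧ (∀ q : ℤ × ℤ, ∃ τ, IsPeriod q τ) := by
  refine ⟨?_, ?_, fun q => Pool.Agent.Q10.KW.ex_per q⟩
  · intro A B κ w L u hF hL hu
    obtain ⟨h1, h2, h3, h4, h5, g, n, d, h, e, c, k1, k2, k3, k4, k5, k6, k7, k8, k9, k10⟩ := hF
    have hpn : ∏ k, (Sum.elim g h : Fin w ⊕ Fin L → ℤ[X]) k = (∏ j, g j) * ∏ i, h i := by
      rw [Fintype.prod_sum_type]
      rfl
    have hsn : ∑ k, (Sum.elim n (fun _ => 1) : Fin w ⊕ Fin L → ℕ) k = ∑ j, n j + L := by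
      rw [Fintype.sum_sum_type]
      simp
    have hRG := Pool.Agent.Q10.KW.rg_gen A B κ h1 h2 h3 h4 h5
      (Sum.elim g h : Fin w ⊕ Fin L → ℤ[X]) (Sum.elim n (fun _ => 1)) (Sum.elim d e)
      (by rintro (j | i) <;> simp only [Sum.elim_inl, Sum.elim_inr]; exacts [(k1 j).1, k2 i])
      (by rintro (j | i) <;> simp only [Sum.elim_inl, Sum.elim_inr]; exacts [k7 j, k8 i])
      c k6 (by
        rw [Fintype.sum_sum_type]
        simp only [Sum.elim_inl, Sum.elim_inr, mul_one]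
        exact k9) (by
        rw [Fintype.prod_sum_type]
        simp only [Sum.elim_inl, Sum.elim_inr]
        exact k10)
    rw [hpn, hsn] at hRG
    have hle : ((∏ j, g j) * ∏ i, h i).natDegree ≤ ∑ j, n j + L := by
      refine natDegree_mul_le.trans (add_le_add ?_ ?_)
      · exact (natDegree_prod_le _ _).trans (Finset.sum_le_sum fun j _ => (k1 j).1)
      · refine (natDegree_prod_le _ _).trans ((Finset.sum_le_sum fun i _ => k2 i).trans ?_)
        simp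
    have hcnt := Pool.Agent.Q10.KT.form_up w L hL g n (fun j => (k1 j).1) (fun j => (k1 j).2) h k2
      ⟨k4, hle, k5⟩ (1 / 20) (by norm_num)
    rw [k3] at hcnt
    have hden : (5 : ℝ) ≤ (L : ℝ) + 2 * w - u := by
      have : ((5 + u : ℕ) : ℝ) ≤ ((L + 2 * w : ℕ) : ℝ) := by exact_mod_cast hu
      push_cast at this
      linarith
    have hE : 2 / ((L : ℝ) + 2 * w - u) ≤ 2 / 5 := by
      rw [div_le_div_iff₀ (by linarith) (by norm_num)]
      linarith
    have hE0 : 0 ≤ 2 / ((L : ℝ) + 2 * w - u) := div_nonneg (by norm_num) (by linarith)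
    have hF0 : ((∏ j, g j) * ∏ i, h i) ≠ 0 := by
      intro h0
      rw [h0, Polynomial.map_zero] at k4
      exact k4.ne_zero rfl
    obtain ⟨t1, t2, t3⟩ :=
      Pool.Agent.Q10.KW.twists_gen2 _ _ hF0 hle hRG _ (by linarith) (by linarith) hcnt
    exact ⟨t1, t2, Pool.Agent.Q10.KW.ht_twists t1 t3⟩
  · intro T
    have main : ∀ (a1 a2 a3 : ℤ[X]) (k m : ℕ) (f : Fin m → ℤ[X]) (n : Fin m → ℕ) (E : ℝ),
        Pool.Agent.TH498.HF.FamB (27 * Pool.Agent.TH498.KB.c4p a1 a2 a3)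
          (54 * Pool.Agent.TH498.KB.c6p a1 a2 a3) k m f n →
        Pool.Agent.TH498.HF.Rev (27 * Pool.Agent.TH498.KB.c4p a1 a2 a3)
          (54 * Pool.Agent.TH498.KB.c6p a1 a2 a3) k m f n →
        Pool.Agent.Q10.KT.CountB (∏ i, f i) (∑ i, n i) E → 0 ≤ E → E < 1 / 2 →
        (∀ t, curve T t = Pool.Agent.TH498.KB.crv a1 a2 a3 t) → AlmostAll (KubertTwist T) := by
      intro a1 a2 a3 k m f n E hF hR hc h0 h1 hV
      obtain ⟨c, j, hRG⟩ := Pool.Agent.Q10.KW.rg_of _ _ k m f n hF hR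
      have hF0 : (∏ i, f i) ≠ 0 := by
        intro h0
        have h1 := hF.hsq
        rw [h0] at h1
        simp at h1
      have hle : (∏ i, f i).natDegree ≤ ∑ i, n i :=
        (natDegree_prod_le _ _).trans (Finset.sum_le_sum fun i _ => hF.hn i)
      obtain ⟨t1, t2, t3⟩ := Pool.Agent.Q10.KW.twists_gen2 _ _ hF0 hle hRG E h0 h1 hc
      have hiff : KubertTwist T = Pool.Agent.Q10.KW.TwMem (27 * Pool.Agent.TH498.KB.c4p a1 a2 a3)
          (54 * Pool.Agent.TH498.KB.c6p a1 a2 a3) := by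
        funext a b
        exact propext (Pool.Agent.Q10.KW.twmem_iff a1 a2 a3 (curve T) hV a b)
      rw [hiff]
      exact ⟨t1, t2, Pool.Agent.Q10.KW.ht_twists t1 t3⟩
    cases T
    · exact main _ _ _ _ _ _ _ (2 / 5 + 1 / 20) Pool.Agent.TH498.HF.famB_z7
        Pool.Agent.TH498.HF.rev_z7 (Pool.Agent.Q10.KT.cnt_z7 _ (by norm_num)) (by norm_num)
        (by norm_num) (fun t => by
          simp [curve, Pool.Agent.TH498.KB.crv, Pool.Agent.TH498.KB.a1_z7,
            Pool.Agent.TH498.KB.a2_z7, Pool.Agent.TH498.KB.a3_z7])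
    · exact main _ _ _ _ _ _ _ (2 / 5 + 1 / 20) Pool.Agent.TH498.HF.famB_z8
        Pool.Agent.TH498.HF.rev_z8 (Pool.Agent.Q10.KT.cnt_z8 _ (by norm_num)) (by norm_num)
        (by norm_num) (fun t => by
          simp [curve, Pool.Agent.TH498.KB.crv, Pool.Agent.TH498.KB.a1_z8,
            Pool.Agent.TH498.KB.a2_z8, Pool.Agent.TH498.KB.a3_z8])
    · exact main _ _ _ _ _ _ _ (1 / 3 + 1 / 20) Pool.Agent.TH498.HF.famB_z9
        Pool.Agent.TH498.HF.rev_z9 (Pool.Agent.Q10.KT.cnt_z9 _ (by norm_num)) (by norm_num)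
        (by norm_num) (fun t => by
          simp [curve, Pool.Agent.TH498.KB.crv, Pool.Agent.TH498.KB.a1_z9,
            Pool.Agent.TH498.KB.a2_z9, Pool.Agent.TH498.KB.a3_z9])
    · exact main _ _ _ _ _ _ _ (1 / 3 + 1 / 20) Pool.Agent.TH498.HF.famB_z10
        Pool.Agent.TH498.HF.rev_z10 (Pool.Agent.Q10.KT.cnt_z10 _ (by norm_num)) (by norm_num)
        (by norm_num) (fun t => by
          simp [curve, Pool.Agent.TH498.KB.crv, Pool.Agent.TH498.KB.a1_z10,
            Pool.Agent.TH498.KB.a2_z10, Pool.Agent.TH498.KB.a3_z10])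
    · exact main _ _ _ _ _ _ _ (2 / 7 + 1 / 20) Pool.Agent.TH498.HF.famB_z12
        Pool.Agent.TH498.HF.rev_z12 (Pool.Agent.Q10.KT.cnt_z12 _ (by norm_num)) (by norm_num)
        (by norm_num) (fun t => by
          simp [curve, Pool.Agent.TH498.KB.crv, Pool.Agent.TH498.KB.a1_z12,
            Pool.Agent.TH498.KB.a2_z12, Pool.Agent.TH498.KB.a3_z12])
    · exact main _ _ _ _ _ _ _ (2 / 7 + 1 / 20) Pool.Agent.TH498.HF.famB_z2x8
        Pool.Agent.TH498.HF.rev_z2x8 (Pool.Agent.Q10.KT.cnt_z2x8 _ (by norm_num)) (by norm_num)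
        (by norm_num) (fun t => by
          simp [curve, Pool.Agent.TH498.KB.crv, Pool.Agent.TH498.KB.a1_z2x8,
            Pool.Agent.TH498.KB.a2_z2x8, Pool.Agent.TH498.KB.a3_z2x8])

end Pool.Agent.Results.MP_6babc4_nt.TwistsByConductor
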